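import Mathlib
set_option autoImplicit false
open Finset
namespace Pool.Agent.Helper11.TF

section alg
variable {F : Type} [Field F]

/-- the polarised quadratic with coefficients a -/
def L (x y : F) (a : F × F × F) : F := a.1 + (x + y) * a.2.1 + x * y * a.2.2

theorem L_ext (x y z : F) (hxy : x ≠ y) (hxz : x ≠ z) (hyz : y ≠ z) (a b : F × F × F)
    (h1 : L x y a = L x y b) (h2 : L x z a = L x z b) (h3 : L y z a = L y z b) : a = b := by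
  obtain ⟨a1, a2, a3⟩ := a
  obtain ⟨b1, b2, b3⟩ := b
  simp only [L] at h1 h2 h3
  have e1 : (y - z) * ((a2 - b2) + x * (a3 - b3)) = 0 := by linear_combination h1 - h2
  have e2 : (x - z) * ((a2 - b2) + y * (a3 - b3)) = 0 := by linear_combination h1 - h3
  have f1 : (a2 - b2) + x * (a3 - b3) = 0 :=
    (mul_eq_zero.mp e1).resolve_left (sub_ne_zero.mpr hyz)
  have f2 : (a2 - b2) + y * (a3 - b3) = 0 :=
    (mul_eq_zero.mp e2).resolve_left (sub_ne_zero.mpr hxz)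
  have e3 : (x - y) * (a3 - b3) = 0 := by linear_combination f1 - f2
  have f3 : a3 - b3 = 0 := (mul_eq_zero.mp e3).resolve_left (sub_ne_zero.mpr hxy)
  have f4 : a2 - b2 = 0 := by rw [f3] at f1; simpa using f1
  have g3 : a3 = b3 := sub_eq_zero.mp f3
  have g2 : a2 = b2 := sub_eq_zero.mp f4
  subst g3 g2
  have g1 : a1 = b1 := by linear_combination h1
  rw [g1]

theorem L_ex (x y z : F) (hxy : x ≠ y) (hxz : x ≠ z) (hyz : y ≠ z) (t1 t2 t3 : F) :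
    ∃ a : F × F × F, L x y a = t1 ∧ L x z a = t2 ∧ L y z a = t3 := by
  have n1 : y - z ≠ 0 := sub_ne_zero.mpr hyz
  have n2 : x - z ≠ 0 := sub_ne_zero.mpr hxz
  have n3 : x - y ≠ 0 := sub_ne_zero.mpr hxy
  set a3 : F := ((t1 - t2) / (y - z) - (t1 - t3) / (x - z)) / (x - y) with ha3
  set a2 : F := (t1 - t2) / (y - z) - x * a3 with ha2
  set a1 : F := t1 - (x + y) * a2 - x * y * a3 with ha1
  have k1 : (y - z) * (a2 + x * a3) = t1 - t2 := by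
    rw [ha2]
    have : (t1 - t2) / (y - z) - x * a3 + x * a3 = (t1 - t2) / (y - z) := by ring
    rw [this, mul_div_cancel₀ _ n1]
  have k3 : (x - y) * a3 = (t1 - t2) / (y - z) - (t1 - t3) / (x - z) := by
    rw [ha3, mul_div_cancel₀ _ n3]
  have k2 : (x - z) * (a2 + y * a3) = t1 - t3 := by
    have : a2 + y * a3 = (t1 - t3) / (x - z) := by
      rw [ha2]
      linear_combination -k3
    rw [this, mul_div_cancel₀ _ n2]
  refine ⟨(a1, a2, a3), ?_, ?_, ?_⟩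
  · simp only [L]
    rw [ha1]; ring
  · simp only [L]
    have : a1 = t1 - (x + y) * a2 - x * y * a3 := ha1
    linear_combination this - k1
  · simp only [L]
    have : a1 = t1 - (x + y) * a2 - x * y * a3 := ha1
    linear_combination this - k2

/-- colour of a triple of points -/
def C (x y z : F) (a b c : F × F × F) : F := L y z a + L x z b + L x y c

theorem C_ext (x y z s s' u v : F) (b c : F × F × F)
    (h : C x y z (s, u, v) b c = C x y z (s', u, v) b c) : s = s' := by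
  simp only [C, L] at h
  linear_combination h

theorem C_zero (x y z s u v : F) (b c : F × F × F) :
    C x y z (s, u, v) b c = s + C x y z (0, u, v) b c := by
  simp only [C, L]
  ring

end alg

section idx
variable {G : Type} [Fintype G]

noncomputable def idx (h : ℕ) (a : G) : ℕ := h * Fintype.card G + (Fintype.equivFin G a).val

theorem idx_lt {h h' : ℕ} (hh : h < h') (a b : G) : idx h a < idx h' b := by
  unfold idx
  have h1 := (Fintype.equivFin G a).isLt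
  have h2 : (h + 1) * Fintype.card G ≤ h' * Fintype.card G := Nat.mul_le_mul_right _ hh
  nlinarith

theorem idx_inj {h h' : ℕ} {a b : G} (e : idx h a = idx h' b) : h = h' ∧ a = b := by
  rcases lt_trichotomy h h' with hh | hh | hh
  · exact absurd e (idx_lt hh a b).ne
  · subst hh
    unfold idx at e
    have : (Fintype.equivFin G a) = (Fintype.equivFin G b) := Fin.ext (by omega)
    exact ⟨rfl, (Fintype.equivFin G).injective this⟩
  · exact absurd e (idx_lt hh b a).ne'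

end idx

/-- the blow-up over a finite field -/
theorem core (F : Type) [Field F] [Fintype F] [DecidableEq F]
    (ε : ℝ) (hε : ε < 1) {X Y : Type} [DecidableEq X] [DecidableEq Y]
    (SY : Finset Y) (SI : Finset X) (d0 d1 d2 d3 : Y → X)
    (g0 g1 g2 : X → ℕ) (h0 h1 h2 h3 : Y → ℕ)
    (hne : SY.Nonempty)
    (hlt : ∀ y ∈ SY, h0 y < h1 y ∧ h1 y < h2 y ∧ h2 y < h3 y)
    (e3 : ∀ y ∈ SY, g0 (d3 y) = h0 y ∧ g1 (d3 y) = h1 y ∧ g2 (d3 y) = h2 y)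
    (e2 : ∀ y ∈ SY, g0 (d2 y) = h0 y ∧ g1 (d2 y) = h1 y ∧ g2 (d2 y) = h3 y)
    (e1 : ∀ y ∈ SY, g0 (d1 y) = h0 y ∧ g1 (d1 y) = h2 y ∧ g2 (d1 y) = h3 y)
    (e0 : ∀ y ∈ SY, g0 (d0 y) = h1 y ∧ g1 (d0 y) = h2 y ∧ g2 (d0 y) = h3 y)
    (f3 : ∀ x ∈ SI, ∃ y ∈ SY, d3 y = x)
    (f2 : ∀ x ∈ SI, ∃ y ∈ SY, d2 y = x)
    (f1 : ∀ x ∈ SI, ∃ y ∈ SY, d1 y = x)
    (f0 : ∀ x ∈ SI, ∃ y ∈ SY, d0 y = x)
    (hbig : (1 - ε) * (SY.card : ℝ) ≤ (SI.card : ℝ))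
    (κ : ℕ → F) (hκ : ∀ y ∈ SY, ∀ i ≤ h3 y, ∀ j ≤ h3 y, i ≠ j → κ i ≠ κ j)
    (col : X → F) (hcol : Set.InjOn col (SI : Set X)) :
    ∃ (VV : Finset (ℕ × ℕ × ℕ × ℕ)) (II : Finset (ℕ × ℕ × ℕ)),
      VV.Nonempty ∧
      (∀ v ∈ VV, v.1 < v.2.1 ∧ v.2.1 < v.2.2.1 ∧ v.2.2.1 < v.2.2.2) ∧
      (∀ t ∈ II, ∃ d, (t.1, t.2.1, t.2.2, d) ∈ VV) ∧
      (∀ t ∈ II, ∃ d, (t.1, t.2.1, d, t.2.2) ∈ VV) ∧
      (∀ t ∈ II, ∃ d, (t.1, d, t.2.1, t.2.2) ∈ VV) ∧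
      (∀ t ∈ II, ∃ d, (d, t.1, t.2.1, t.2.2) ∈ VV) ∧
      (1 - ε) * (VV.card : ℝ) ≤ (II.card : ℝ) := by
  classical
  set VH : Finset (Y × (F × F × F) × (F × F × F) × (F × F × F) × (F × F × F)) :=
    (SY ×ˢ (univ : Finset ((F × F × F) × (F × F × F) × (F × F × F) × (F × F × F)))).filter
      (fun v => C (κ (h0 v.1)) (κ (h1 v.1)) (κ (h2 v.1)) v.2.1 v.2.2.1 v.2.2.2.1 = col (d3 v.1) ∧
        C (κ (h0 v.1)) (κ (h1 v.1)) (κ (h3 v.1)) v.2.1 v.2.2.1 v.2.2.2.2 = col (d2 v.1) ∧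
        C (κ (h0 v.1)) (κ (h2 v.1)) (κ (h3 v.1)) v.2.1 v.2.2.2.1 v.2.2.2.2 = col (d1 v.1) ∧
        C (κ (h1 v.1)) (κ (h2 v.1)) (κ (h3 v.1)) v.2.2.1 v.2.2.2.1 v.2.2.2.2 = col (d0 v.1))
    with hVH
  set VV : Finset (ℕ × ℕ × ℕ × ℕ) := VH.image (fun v =>
    (idx (h0 v.1) v.2.1, idx (h1 v.1) v.2.2.1, idx (h2 v.1) v.2.2.2.1, idx (h3 v.1) v.2.2.2.2))
    with hVV
  set Φ : X × F × F × (F × F × F) × (F × F × F) → ℕ × ℕ × ℕ := fun w =>
    (idx (g0 w.1) (col w.1 - C (κ (g0 w.1)) (κ (g1 w.1)) (κ (g2 w.1)) (0, w.2.1, w.2.2.1)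
        w.2.2.2.1 w.2.2.2.2, w.2.1, w.2.2.1),
      idx (g1 w.1) w.2.2.2.1, idx (g2 w.1) w.2.2.2.2) with hΦ
  set II : Finset (ℕ × ℕ × ℕ) :=
    (SI ×ˢ (univ : Finset (F × F × (F × F × F) × (F × F × F)))).image Φ with hII
  -- the members of VV
  have memVV : ∀ y ∈ SY, ∀ a0 a1 a2 a3 : F × F × F,
      C (κ (h0 y)) (κ (h1 y)) (κ (h2 y)) a0 a1 a2 = col (d3 y) →
      C (κ (h0 y)) (κ (h1 y)) (κ (h3 y)) a0 a1 a3 = col (d2 y) →
      C (κ (h0 y)) (κ (h2 y)) (κ (h3 y)) a0 a2 a3 = col (d1 y) →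
      C (κ (h1 y)) (κ (h2 y)) (κ (h3 y)) a1 a2 a3 = col (d0 y) →
      (idx (h0 y) a0, idx (h1 y) a1, idx (h2 y) a2, idx (h3 y) a3) ∈ VV := by
    intro y hy a0 a1 a2 a3 q3 q2 q1 q0
    rw [hVV, mem_image]
    refine ⟨(y, a0, a1, a2, a3), ?_, rfl⟩
    rw [hVH, mem_filter, mem_product]
    exact ⟨⟨hy, mem_univ _⟩, q3, q2, q1, q0⟩
  -- distinct heights
  have hd : ∀ y ∈ SY, κ (h0 y) ≠ κ (h1 y) ∧ κ (h0 y) ≠ κ (h2 y) ∧ κ (h0 y) ≠ κ (h3 y) ∧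
      κ (h1 y) ≠ κ (h2 y) ∧ κ (h1 y) ≠ κ (h3 y) ∧ κ (h2 y) ≠ κ (h3 y) := by
    intro y hy
    obtain ⟨l1, l2, l3⟩ := hlt y hy
    refine ⟨hκ y hy _ (by omega) _ (by omega) (by omega), hκ y hy _ (by omega) _ (by omega) (by omega),
      hκ y hy _ (by omega) _ (by omega) (by omega), hκ y hy _ (by omega) _ (by omega) (by omega),
      hκ y hy _ (by omega) _ (by omega) (by omega), hκ y hy _ (by omega) _ (by omega) (by omega)⟩
  -- elements of II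
  have memII : ∀ t ∈ II, ∃ x ∈ SI, ∃ a b c : F × F × F,
      C (κ (g0 x)) (κ (g1 x)) (κ (g2 x)) a b c = col x ∧
      t = (idx (g0 x) a, idx (g1 x) b, idx (g2 x) c) := by
    intro t ht
    rw [hII, mem_image] at ht
    obtain ⟨w, hw, rfl⟩ := ht
    obtain ⟨x, u, v, b, c⟩ := w
    rw [mem_product] at hw
    refine ⟨x, hw.1, _, b, c, ?_, rfl⟩
    rw [C_zero]
    ring
  have F3 : ∀ t ∈ II, ∃ d, (t.1, t.2.1, t.2.2, d) ∈ VV := by
    intro t ht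
    obtain ⟨x, hx, a, b, c, hc, rfl⟩ := memII t ht
    obtain ⟨y, hy, rfl⟩ := f3 x hx
    obtain ⟨k1, k2, k3⟩ := e3 y hy
    obtain ⟨n01, n02, n03, n12, n13, n23⟩ := hd y hy
    rw [k1, k2, k3] at hc ⊢
    obtain ⟨d, q2, q1, q0⟩ := L_ex (κ (h0 y)) (κ (h1 y)) (κ (h2 y)) n01 n02 n12
      (col (d2 y) - L (κ (h1 y)) (κ (h3 y)) a - L (κ (h0 y)) (κ (h3 y)) b)
      (col (d1 y) - L (κ (h2 y)) (κ (h3 y)) a - L (κ (h0 y)) (κ (h3 y)) c)
      (col (d0 y) - L (κ (h2 y)) (κ (h3 y)) b - L (κ (h1 y)) (κ (h3 y)) c)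
    refine ⟨idx (h3 y) d, memVV y hy a b c d hc ?_ ?_ ?_⟩
    · simp only [C, q2]; ring
    · simp only [C, q1]; ring
    · simp only [C, q0]; ring
  have F2 : ∀ t ∈ II, ∃ d, (t.1, t.2.1, d, t.2.2) ∈ VV := by
    intro t ht
    obtain ⟨x, hx, a, b, c, hc, rfl⟩ := memII t ht
    obtain ⟨y, hy, rfl⟩ := f2 x hx
    obtain ⟨k1, k2, k3⟩ := e2 y hy
    obtain ⟨n01, n02, n03, n12, n13, n23⟩ := hd y hy
    rw [k1, k2, k3] at hc ⊢
    obtain ⟨d, q3, q1, q0⟩ := L_ex (κ (h0 y)) (κ (h1 y)) (κ (h3 y)) n01 n03 n13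
      (col (d3 y) - L (κ (h1 y)) (κ (h2 y)) a - L (κ (h0 y)) (κ (h2 y)) b)
      (col (d1 y) - L (κ (h2 y)) (κ (h3 y)) a - L (κ (h0 y)) (κ (h2 y)) c)
      (col (d0 y) - L (κ (h2 y)) (κ (h3 y)) b - L (κ (h1 y)) (κ (h2 y)) c)
    refine ⟨idx (h2 y) d, memVV y hy a b d c ?_ hc ?_ ?_⟩
    · simp only [C, q3]; ring
    · simp only [C, q1]; ring
    · simp only [C, q0]; ring
  have F1 : ∀ t ∈ II, ∃ d, (t.1, d, t.2.1, t.2.2) ∈ VV := by
    intro t ht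
    obtain ⟨x, hx, a, b, c, hc, rfl⟩ := memII t ht
    obtain ⟨y, hy, rfl⟩ := f1 x hx
    obtain ⟨k1, k2, k3⟩ := e1 y hy
    obtain ⟨n01, n02, n03, n12, n13, n23⟩ := hd y hy
    rw [k1, k2, k3] at hc ⊢
    obtain ⟨d, q3, q2, q0⟩ := L_ex (κ (h0 y)) (κ (h2 y)) (κ (h3 y)) n02 n03 n23
      (col (d3 y) - L (κ (h1 y)) (κ (h2 y)) a - L (κ (h0 y)) (κ (h1 y)) b)
      (col (d2 y) - L (κ (h1 y)) (κ (h3 y)) a - L (κ (h0 y)) (κ (h1 y)) c)
      (col (d0 y) - L (κ (h1 y)) (κ (h3 y)) b - L (κ (h1 y)) (κ (h2 y)) c)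
    refine ⟨idx (h1 y) d, memVV y hy a d b c ?_ ?_ hc ?_⟩
    · simp only [C, q3]; ring
    · simp only [C, q2]; ring
    · simp only [C, q0]; ring
  have F0 : ∀ t ∈ II, ∃ d, (d, t.1, t.2.1, t.2.2) ∈ VV := by
    intro t ht
    obtain ⟨x, hx, a, b, c, hc, rfl⟩ := memII t ht
    obtain ⟨y, hy, rfl⟩ := f0 x hx
    obtain ⟨k1, k2, k3⟩ := e0 y hy
    obtain ⟨n01, n02, n03, n12, n13, n23⟩ := hd y hy
    rw [k1, k2, k3] at hc ⊢
    obtain ⟨d, q3, q2, q1⟩ := L_ex (κ (h1 y)) (κ (h2 y)) (κ (h3 y)) n12 n13 n23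
      (col (d3 y) - L (κ (h0 y)) (κ (h2 y)) a - L (κ (h0 y)) (κ (h1 y)) b)
      (col (d2 y) - L (κ (h0 y)) (κ (h3 y)) a - L (κ (h0 y)) (κ (h1 y)) c)
      (col (d1 y) - L (κ (h0 y)) (κ (h3 y)) b - L (κ (h0 y)) (κ (h2 y)) c)
    refine ⟨idx (h0 y) d, memVV y hy d a b c ?_ ?_ ?_ hc⟩
    · simp only [C, q3]; ring
    · simp only [C, q2]; ring
    · simp only [C, q1]; ring
  -- cardinalities
  have cII : II.card = SI.card * Fintype.card (F × F × (F × F × F) × (F × F × F)) := by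
    rw [hII, card_image_of_injOn, card_product, card_univ]
    intro w hw w' hw' hww
    obtain ⟨x, u, v, b, c⟩ := w
    obtain ⟨x', u', v', b', c'⟩ := w'
    rw [mem_coe, mem_product] at hw hw'
    simp only [hΦ, Prod.mk.injEq] at hww
    obtain ⟨r1, r2, r3⟩ := hww
    obtain ⟨s1, s1'⟩ := idx_inj r1
    obtain ⟨s2, s2'⟩ := idx_inj r2
    obtain ⟨s3, s3'⟩ := idx_inj r3
    simp only [Prod.mk.injEq] at s1'
    obtain ⟨m1, m2, m3⟩ := s1'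
    subst m2 m3 s2' s3'
    rw [s1, s2, s3] at m1
    have hcc : col x = col x' := by linear_combination m1
    have hxx : x = x' := hcol hw.1 hw'.1 hcc
    rw [hxx]
  have cVV : VV.card ≤ SY.card * Fintype.card (F × F × (F × F × F) × (F × F × F)) := by
    refine le_trans card_image_le ?_
    have : (SY ×ˢ (univ : Finset (F × F × (F × F × F) × (F × F × F)))).card =
        SY.card * Fintype.card (F × F × (F × F × F) × (F × F × F)) := by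
      rw [card_product, card_univ]
    rw [← this]
    refine card_le_card_of_injOn
      (fun v => (v.1, v.2.1.2.1, v.2.1.2.2, v.2.2.1, v.2.2.2.1)) ?_ ?_
    · intro v hv
      rw [mem_coe, hVH, mem_filter, mem_product] at hv
      rw [mem_coe, mem_product]
      exact ⟨hv.1.1, mem_univ _⟩
    · intro v hv v' hv' hvv
      obtain ⟨y, ⟨s, u, w⟩, a1, a2, a3⟩ := v
      obtain ⟨y', ⟨s', u', w'⟩, a1', a2', a3'⟩ := v'
      rw [mem_coe, hVH, mem_filter, mem_product] at hv hv'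
      obtain ⟨⟨hy, -⟩, q3, q2, q1, q0⟩ := hv
      obtain ⟨⟨-, -⟩, q3', q2', q1', q0'⟩ := hv'
      simp only [Prod.mk.injEq] at hvv
      obtain ⟨m1, m2, m3, m4, m5⟩ := hvv
      subst m1 m2 m3 m4 m5
      simp only at q3 q2 q1 q0 q3' q2' q1' q0' hy
      obtain ⟨n01, n02, n03, n12, n13, n23⟩ := hd y hy
      have hs : s = s' := C_ext _ _ _ _ _ _ _ _ _ (q3.trans q3'.symm)
      subst hs
      have h3 : a3 = a3' := by
        refine L_ext (κ (h0 y)) (κ (h1 y)) (κ (h2 y)) n01 n02 n12 a3 a3' ?_ ?_ ?_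
        · have := q2.trans q2'.symm
          simp only [C] at this
          linear_combination this
        · have := q1.trans q1'.symm
          simp only [C] at this
          linear_combination this
        · have := q0.trans q0'.symm
          simp only [C] at this
          linear_combination this
      rw [h3]
  have hpos : 0 < (1 - ε) := by linarith
  have hSI : SI.Nonempty := by
    rw [← card_pos]
    have : 0 < (SY.card : ℝ) := by exact_mod_cast card_pos.mpr hne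
    have : 0 < (SI.card : ℝ) := lt_of_lt_of_le (mul_pos hpos this) hbig
    exact_mod_cast this
  refine ⟨VV, II, ?_, ?_, F3, F2, F1, F0, ?_⟩
  · obtain ⟨x, hx⟩ := hSI
    have : Φ (x, 0, 0, (0, 0, 0), (0, 0, 0)) ∈ II := by
      rw [hII, mem_image]
      exact ⟨_, mem_product.mpr ⟨hx, mem_univ _⟩, rfl⟩
    obtain ⟨d, hd'⟩ := F3 _ this
    exact ⟨_, hd'⟩
  · intro v hv
    rw [hVV, mem_image] at hv
    obtain ⟨v, hv, rfl⟩ := hv
    rw [hVH, mem_filter, mem_product] at hv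
    obtain ⟨l1, l2, l3⟩ := hlt v.1 hv.1.1
    exact ⟨idx_lt l1 _ _, idx_lt l2 _ _, idx_lt l3 _ _⟩
  · rw [cII]
    have h1 : (VV.card : ℝ) ≤ (SY.card : ℝ) * Fintype.card (F × F × (F × F × F) × (F × F × F)) := by
      exact_mod_cast cVV
    calc (1 - ε) * (VV.card : ℝ)
        ≤ (1 - ε) * ((SY.card : ℝ) * Fintype.card (F × F × (F × F × F) × (F × F × F))) :=
          mul_le_mul_of_nonneg_left h1 hpos.le
      _ = ((1 - ε) * (SY.card : ℝ)) * Fintype.card (F × F × (F × F × F) × (F × F × F)) := by ring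
      _ ≤ (SI.card : ℝ) * Fintype.card (F × F × (F × F × F) × (F × F × F)) :=
          mul_le_mul_of_nonneg_right hbig (Nat.cast_nonneg _)
      _ = ((SI.card * Fintype.card (F × F × (F × F × F) × (F × F × F)) : ℕ) : ℝ) := by
          push_cast; ring

/-- LEAF B (colour blow-up): finite skeleton with states -/
theorem leafB (ε : ℝ) (hε : ε < 1) {X Y : Type} [DecidableEq X] [DecidableEq Y]
    (SY : Finset Y) (SI : Finset X) (d0 d1 d2 d3 : Y → X)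
    (g0 g1 g2 : X → ℕ) (h0 h1 h2 h3 : Y → ℕ)
    (hne : SY.Nonempty)
    (hlt : ∀ y ∈ SY, h0 y < h1 y ∧ h1 y < h2 y ∧ h2 y < h3 y)
    (e3 : ∀ y ∈ SY, g0 (d3 y) = h0 y ∧ g1 (d3 y) = h1 y ∧ g2 (d3 y) = h2 y)
    (e2 : ∀ y ∈ SY, g0 (d2 y) = h0 y ∧ g1 (d2 y) = h1 y ∧ g2 (d2 y) = h3 y)
    (e1 : ∀ y ∈ SY, g0 (d1 y) = h0 y ∧ g1 (d1 y) = h2 y ∧ g2 (d1 y) = h3 y)
    (e0 : ∀ y ∈ SY, g0 (d0 y) = h1 y ∧ g1 (d0 y) = h2 y ∧ g2 (d0 y) = h3 y)
    (f3 : ∀ x ∈ SI, ∃ y ∈ SY, d3 y = x)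
    (f2 : ∀ x ∈ SI, ∃ y ∈ SY, d2 y = x)
    (f1 : ∀ x ∈ SI, ∃ y ∈ SY, d1 y = x)
    (f0 : ∀ x ∈ SI, ∃ y ∈ SY, d0 y = x)
    (hbig : (1 - ε) * (SY.card : ℝ) ≤ (SI.card : ℝ)) :
    ∃ (VV : Finset (ℕ × ℕ × ℕ × ℕ)) (II : Finset (ℕ × ℕ × ℕ)),
      VV.Nonempty ∧
      (∀ v ∈ VV, v.1 < v.2.1 ∧ v.2.1 < v.2.2.1 ∧ v.2.2.1 < v.2.2.2) ∧
      (∀ t ∈ II, ∃ d, (t.1, t.2.1, t.2.2, d) ∈ VV) ∧
      (∀ t ∈ II, ∃ d, (t.1, t.2.1, d, t.2.2) ∈ VV) ∧
      (∀ t ∈ II, ∃ d, (t.1, d, t.2.1, t.2.2) ∈ VV) ∧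
      (∀ t ∈ II, ∃ d, (d, t.1, t.2.1, t.2.2) ∈ VV) ∧
      (1 - ε) * (VV.card : ℝ) ≤ (II.card : ℝ) := by
  classical
  obtain ⟨p, hp, hprime⟩ := Nat.exists_infinite_primes (SY.sup h3 + SI.card + 1)
  have : Fact p.Prime := ⟨hprime⟩
  have castinj : ∀ i j : ℕ, i < p → j < p → ((i : ℕ) : ZMod p) = (j : ZMod p) → i = j := by
    intro i j hi hj h
    have := (ZMod.natCast_eq_natCast_iff' i j p).mp h
    rwa [Nat.mod_eq_of_lt hi, Nat.mod_eq_of_lt hj] at this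
  refine core (ZMod p) ε hε SY SI d0 d1 d2 d3 g0 g1 g2 h0 h1 h2 h3 hne hlt e3 e2 e1 e0 f3 f2 f1 f0
    hbig (fun i => (i : ZMod p)) ?_
    (fun x => if hx : x ∈ SI then ((SI.equivFin ⟨x, hx⟩ : ℕ) : ZMod p) else 0) ?_
  · intro y hy i hi j hj hij h
    have hs : h3 y ≤ SY.sup h3 := Finset.le_sup hy
    exact hij (castinj i j (by omega) (by omega) h)
  · intro x hx x' hx' h
    have hx1 : x ∈ SI := hx
    have hx1' : x' ∈ SI := hx'
    simp only [hx1, hx1', dif_pos] at h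
    have k1 := (SI.equivFin ⟨x, hx1⟩).isLt
    have k2 := (SI.equivFin ⟨x', hx1'⟩).isLt
    have := castinj _ _ (by omega) (by omega) h
    have := SI.equivFin.injective (Fin.ext this)
    exact congrArg Subtype.val this

end Pool.Agent.Helper11.TF
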